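import Pool.Agent.Y358.IN.Ind

/-!
# Nowhere-zero 5-flows and induced circuits: the class

The class of the graphs in which every induced circuit has at most `k` vertices of degree at least
three is closed under contractions.
-/

set_option autoImplicit false
set_option linter.unusedSectionVars false
set_option linter.dupNamespace false

namespace Pool.Agent.R129.Hole

open Finset Pool.Agent.TH676.Z Pool.Agent.Y335.FL Pool.Agent.Y358.IN

section hole

variable {V : Type}

/-- the vertex sets of induced circuits -/
structure Hole (Ad : V → V → Prop) (C : Finset V) : Prop where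
  ne : C.Nonempty
  two : ∀ x ∈ C, ∃ a ∈ C, ∃ b ∈ C, a ≠ b ∧ Ad x a ∧ Ad x b ∧ ∀ y ∈ C, Ad x y → y = a ∨ y = b
  conn : ∀ A ⊆ C, A.Nonempty → (∀ a ∈ A, ∀ b ∈ C, Ad a b → b ∈ A) → A = C

theorem Hole.map [DecidableEq V] {Ad Ad' : V → V → Prop} {C : Finset V} (h : Hole Ad' C)
    (σ : V → V) (hσ : Set.InjOn σ C) (hA : ∀ a ∈ C, ∀ b ∈ C, Ad' a b ↔ Ad (σ a) (σ b)) :
    Hole Ad (C.image σ) := by
  refine ⟨h.ne.image σ, ?_, ?_⟩
  · intro x0 hx0
    obtain ⟨x, hx, rfl⟩ := mem_image.1 hx0
    obtain ⟨a, ha, b, hb, hab, h1, h2, h3⟩ := h.two x hx
    refine ⟨σ a, mem_image_of_mem _ ha, σ b, mem_image_of_mem _ hb, fun h4 => hab (hσ ha hb h4),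
      (hA x hx a ha).1 h1, (hA x hx b hb).1 h2, ?_⟩
    intro y0 hy0 hxy
    obtain ⟨y, hy, rfl⟩ := mem_image.1 hy0
    rcases h3 y hy ((hA x hx y hy).2 hxy) with rfl | rfl
    · exact Or.inl rfl
    · exact Or.inr rfl
  · intro A hA1 hA2 hA3
    have h1 := h.conn (C.filter (fun x => σ x ∈ A)) (filter_subset _ _) (by
      obtain ⟨a, ha⟩ := hA2
      obtain ⟨x, hx, rfl⟩ := mem_image.1 (hA1 ha)
      exact ⟨x, mem_filter.2 ⟨hx, ha⟩⟩) (by
      intro a ha b hb hab
      rw [mem_filter] at ha ⊢
      exact ⟨hb, hA3 _ ha.2 _ (mem_image_of_mem _ hb) ((hA a ha.1 b hb).1 hab)⟩)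
    refine Subset.antisymm hA1 ?_
    intro y0 hy
    obtain ⟨x, hx, rfl⟩ := mem_image.1 hy
    rw [← h1] at hx
    exact (mem_filter.1 hx).2

end hole

section cls

variable {V E : Type} [Fintype V] [DecidableEq V] [Fintype E] [DecidableEq E]

theorem ctr_eq_iff {u v a x : V} (hx : x ≠ u) (hxv : x ≠ v) : ctr u v a = x ↔ a = x := by
  unfold ctr
  split_ifs with h
  · constructor
    · intro h1
      exact absurd h1.symm hx
    · intro h1
      exact absurd (h1.symm.trans h) hxv
  · rfl

theorem ctr_eq_u {u v a : V} : ctr u v a = u ↔ a = u ∨ a = v := by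
  unfold ctr
  split_ifs with h
  · simp [h]
  · simp [h]

theorem adj_iff {src dst : E → V} {u v x y : V} (hx : x ≠ u) (hxv : x ≠ v) (hy : y ≠ u)
    (hyv : y ≠ v) : Adj (ctr u v ∘ src) (ctr u v ∘ dst) x y ↔ Adj src dst x y := by
  unfold Adj
  simp only [Function.comp_apply, ctr_eq_iff hx hxv, ctr_eq_iff hy hyv]

theorem adj_u_iff {src dst : E → V} {u v y : V} (hy : y ≠ u) (hyv : y ≠ v) :
    Adj (ctr u v ∘ src) (ctr u v ∘ dst) u y ↔ (Adj src dst u y ∨ Adj src dst v y) := by
  unfold Adj
  simp only [Function.comp_apply, ctr_eq_u, ctr_eq_iff hy hyv]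
  constructor
  · rintro ⟨_, e, ⟨h1 | h1, h2⟩ | ⟨h1, h2 | h2⟩⟩
    · exact Or.inl ⟨hy.symm, e, Or.inl ⟨h1, h2⟩⟩
    · exact Or.inr ⟨hyv.symm, e, Or.inl ⟨h1, h2⟩⟩
    · exact Or.inl ⟨hy.symm, e, Or.inr ⟨h1, h2⟩⟩
    · exact Or.inr ⟨hyv.symm, e, Or.inr ⟨h1, h2⟩⟩
  · rintro (⟨_, e, ⟨h1, h2⟩ | ⟨h1, h2⟩⟩ | ⟨_, e, ⟨h1, h2⟩ | ⟨h1, h2⟩⟩)
    · exact ⟨hy.symm, e, Or.inl ⟨Or.inl h1, h2⟩⟩
    · exact ⟨hy.symm, e, Or.inr ⟨h1, Or.inl h2⟩⟩
    · exact ⟨hy.symm, e, Or.inl ⟨Or.inr h1, h2⟩⟩
    · exact ⟨hy.symm, e, Or.inr ⟨h1, Or.inr h2⟩⟩

theorem adj_symm' {src dst : E → V} {x y : V} (h : Adj src dst x y) : Adj src dst y x :=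
  ⟨h.1.symm, h.2.imp fun _ he => he.symm⟩

theorem not_adj_v {src dst : E → V} {u v y : V} (huv : u ≠ v) :
    ¬ Adj (ctr u v ∘ src) (ctr u v ∘ dst) v y := by
  rintro ⟨_, e, ⟨h1, _⟩ | ⟨_, h1⟩⟩
  · simp only [Function.comp_apply] at h1
    unfold ctr at h1
    split_ifs at h1 with h
    · exact huv h1
    · exact h h1
  · simp only [Function.comp_apply] at h1
    unfold ctr at h1
    split_ifs at h1 with h
    · exact huv h1
    · exact h h1

/-- three neighbours -/
theorem dg_three {src dst : E → V} {x a b c : V} (ha : Adj src dst x a) (hb : Adj src dst x b)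
    (hc : Adj src dst x c) (hab : a ≠ b) (hac : a ≠ c) (hbc : b ≠ c) : 3 ≤ dg src dst x := by
  obtain ⟨ha, ea, ha'⟩ := ha
  obtain ⟨hb, eb, hb'⟩ := hb
  obtain ⟨hc, ec, hc'⟩ := hc
  have key : ∀ {a b : V} {e : E}, x ≠ a → x ≠ b → ((src e = x ∧ dst e = a) ∨
      (src e = a ∧ dst e = x)) → ((src e = x ∧ dst e = b) ∨ (src e = b ∧ dst e = x)) → a = b := by
    intro a b e h1 h2 h3 h4
    rcases h3 with ⟨p, q⟩ | ⟨p, q⟩ <;> rcases h4 with ⟨r, s⟩ | ⟨r, s⟩
    · exact q.symm.trans s
    · exact absurd (q.symm.trans s).symm h1
    · exact absurd (p.symm.trans r).symm h1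
    · exact p.symm.trans r
  have hmem : ∀ {a : V} {e : E}, x ≠ a → ((src e = x ∧ dst e = a) ∨ (src e = a ∧ dst e = x)) →
      e ∈ univ.filter (fun e => src e ≠ dst e ∧ (src e = x ∨ dst e = x)) := by
    intro a e h1 h2
    rw [mem_filter]
    rcases h2 with ⟨p, q⟩ | ⟨p, q⟩
    · exact ⟨mem_univ _, by rw [p, q]; exact h1, Or.inl p⟩
    · exact ⟨mem_univ _, by rw [p, q]; exact h1.symm, Or.inr q⟩
  have h1 : ({ea, eb, ec} : Finset E) ⊆
      univ.filter (fun e => src e ≠ dst e ∧ (src e = x ∨ dst e = x)) := by
    intro e he
    simp only [mem_insert, mem_singleton] at he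
    rcases he with rfl | rfl | rfl
    · exact hmem ha ha'
    · exact hmem hb hb'
    · exact hmem hc hc'
  unfold dg
  refine le_trans ?_ (card_le_card h1)
  rw [card_eq_three.2 ⟨ea, eb, ec, ?_, ?_, ?_, rfl⟩]
  · rintro rfl
    exact hab (key ha hb ha' hb')
  · rintro rfl
    exact hac (key ha hc ha' hc')
  · rintro rfl
    exact hbc (key hb hc hb' hc')

/-- every induced circuit has at most `k` vertices of degree at least three -/
def ClH (k : ℕ) (src dst : E → V) : Prop :=
  ∀ C : Finset V, Hole (Adj src dst) C → (C.filter (fun x => 3 ≤ dg src dst x)).card ≤ k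

theorem ccH (k : ℕ) : CC (V := V) (E := E) (ClH k) := by
  classical
  intro src dst e h hne C hC
  set u := src e with hu
  set v := dst e with hv
  have huv : Adj src dst u v := ⟨hne, e, Or.inl ⟨rfl, rfl⟩⟩
  have hvC : ∀ y ∈ C, y ≠ v := by
    rintro y hy rfl
    obtain ⟨a, _, b, _, _, h1, _⟩ := hC.two _ hy
    exact not_adj_v hne h1
  have hdg : ∀ x, x ≠ u → 3 ≤ dg (ctr u v ∘ src) (ctr u v ∘ dst) x → 3 ≤ dg src dst x :=
    fun x hx h3 => h3.trans (Ord.dg_ctr_other src dst hx)
  by_cases huC : u ∈ C
  · obtain ⟨p, hp, q, hq, hpq, h1, h2, h3⟩ := hC.two u huC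
    have hpu : p ≠ u := h1.1.symm
    have hqu : q ≠ u := h2.1.symm
    have hpv := hvC p hp
    have hqv := hvC q hq
    rw [adj_u_iff hpu hpv] at h1
    rw [adj_u_iff hqu hqv] at h2
    -- neighbours of `u` or `v` in `C`
    have h3' : ∀ y ∈ C, y ≠ u → (Adj src dst u y ∨ Adj src dst v y) → y = p ∨ y = q := by
      intro y hy hyu hor
      exact h3 y hy ((adj_u_iff hyu (hvC y hy)).2 hor)
    by_cases c1 : Adj src dst u p ∧ Adj src dst u q
    · -- the same set
      have hH : Hole (Adj src dst) C := by
        have h5 := hC.map (Ad := Adj src dst) id (fun a _ b _ hab => hab) (by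
          intro a ha b hb
          by_cases hau : a = u
          · subst hau
            by_cases hbu : b = u
            · subst hbu
              exact ⟨fun h => absurd rfl h.1, fun h => absurd rfl h.1⟩
            · rw [adj_u_iff hbu (hvC b hb)]
              refine ⟨fun h => ?_, fun h => Or.inl h⟩
              rcases h3' b hb hbu h with rfl | rfl
              · exact c1.1
              · exact c1.2
          · by_cases hbu : b = u
            · subst hbu
              constructor
              · intro h
                have h6 := adj_symm' h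
                rw [adj_u_iff hau (hvC a ha)] at h6
                rcases h3' a ha hau h6 with rfl | rfl
                · exact adj_symm' c1.1
                · exact adj_symm' c1.2
              · intro h
                exact adj_symm' ((adj_u_iff hau (hvC a ha)).2 (Or.inl (adj_symm' h)))
            · exact adj_iff hau (hvC a ha) hbu (hvC b hb))
        rwa [image_id] at h5
      refine le_trans (card_le_card ?_) (h C hH)
      intro x hx
      rw [mem_filter] at hx ⊢
      refine ⟨hx.1, ?_⟩
      by_cases hxu : x = u
      · rw [hxu]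
        exact dg_three c1.1 c1.2 huv hpq hpv hqv
      · exact hdg x hxu hx.2
    by_cases c2 : Adj src dst v p ∧ Adj src dst v q
    · -- replace `u` by `v`
      have hinj : Set.InjOn (fun x => if x = u then v else x) C := by
        intro a ha b hb hab
        dsimp only at hab
        split_ifs at hab with h5 h6 h6
        · rw [h5, h6]
        · exact absurd hab.symm (hvC b hb)
        · exact absurd hab (hvC a ha)
        · exact hab
      have hH := hC.map (Ad := Adj src dst) (fun x => if x = u then v else x) hinj (by
          intro a ha b hb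
          by_cases hau : a = u
          · rw [if_pos hau]
            by_cases hbu : b = u
            · rw [if_pos hbu, hau, hbu]
              exact ⟨fun h => absurd rfl h.1, fun h => absurd rfl h.1⟩
            · rw [if_neg hbu, hau, adj_u_iff hbu (hvC b hb)]
              refine ⟨fun h => ?_, fun h => Or.inr h⟩
              rcases h3' b hb hbu h with rfl | rfl
              · exact c2.1
              · exact c2.2
          · rw [if_neg hau]
            by_cases hbu : b = u
            · rw [if_pos hbu, hbu]
              constructor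
              · intro h
                have h6 := adj_symm' h
                rw [adj_u_iff hau (hvC a ha)] at h6
                rcases h3' a ha hau h6 with rfl | rfl
                · exact adj_symm' c2.1
                · exact adj_symm' c2.2
              · intro h
                exact adj_symm' ((adj_u_iff hau (hvC a ha)).2 (Or.inr (adj_symm' h)))
            · rw [if_neg hbu]
              exact adj_iff hau (hvC a ha) hbu (hvC b hb))
      refine le_trans ?_ (h _ hH)
      refine card_le_card_of_injOn (fun x => if x = u then v else x) ?_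
        (hinj.mono fun x hx => (mem_filter.1 hx).1)
      intro x hx
      rw [mem_coe, mem_filter] at hx
      rw [mem_coe, mem_filter]
      refine ⟨mem_image_of_mem _ hx.1, ?_⟩
      dsimp only
      by_cases hxu : x = u
      · rw [if_pos hxu]
        exact dg_three c2.1 c2.2 (adj_symm' huv) hpq hpu hqu
      · rw [if_neg hxu]
        exact hdg x hxu hx.2
    -- both vertices
    have hcase : ∃ p q, p ∈ C ∧ q ∈ C ∧ p ≠ q ∧ p ≠ u ∧ q ≠ u ∧ Adj src dst u p ∧
        Adj src dst v q ∧ ¬ Adj src dst u q ∧ ¬ Adj src dst v p ∧
        ∀ y ∈ C, y ≠ u → (Adj src dst u y ∨ Adj src dst v y) → y = p ∨ y = q := by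
      by_cases hup : Adj src dst u p
      · have huq : ¬ Adj src dst u q := fun h => c1 ⟨hup, h⟩
        have hvq : Adj src dst v q := h2.resolve_left huq
        exact ⟨p, q, hp, hq, hpq, hpu, hqu, hup, hvq, huq, fun h => c2 ⟨h, hvq⟩, h3'⟩
      · have hvp : Adj src dst v p := h1.resolve_left hup
        have hvq : ¬ Adj src dst v q := fun h => c2 ⟨hvp, h⟩
        have huq : Adj src dst u q := h2.resolve_right hvq
        exact ⟨q, p, hq, hp, hpq.symm, hqu, hpu, huq, hvp, hup, hvq,
          fun y hy hyu h => (h3' y hy hyu h).symm⟩
    clear h1 h2 h3 h3' hpq hpu hqu hpv hqv hp hq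
    clear c1 c2 p q
    obtain ⟨p, q, hp, hq, hpq, hpu, hqu, hup, hvq, huq, hvp, h3'⟩ := hcase
    have hvnC : v ∉ C := fun h => hvC v h rfl
    have hH : Hole (Adj src dst) (insert v C) := by
      refine ⟨⟨v, mem_insert_self _ _⟩, ?_, ?_⟩
      · intro x hx
        rcases mem_insert.1 hx with rfl | hx
        · refine ⟨q, mem_insert_of_mem hq, u, mem_insert_of_mem huC, hqu, hvq, adj_symm' huv, ?_⟩
          intro y hy hvy
          rcases mem_insert.1 hy with rfl | hy
          · exact absurd rfl hvy.1
          · by_cases hyu : y = u
            · exact Or.inr hyu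
            · rcases h3' y hy hyu (Or.inr hvy) with rfl | rfl
              · exact absurd hvy hvp
              · exact Or.inl rfl
        · by_cases hxu : x = u
          · rw [hxu]
            refine ⟨p, mem_insert_of_mem hp, v, mem_insert_self _ _, hvC p hp, hup, huv, ?_⟩
            intro y hy huy
            rcases mem_insert.1 hy with rfl | hy
            · exact Or.inr rfl
            · rcases h3' y hy huy.1.symm (Or.inl huy) with rfl | rfl
              · exact Or.inl rfl
              · exact absurd huy huq
          · have hxv := hvC x hx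
            obtain ⟨a, ha, b, hb, hab, k1, k2, k3⟩ := hC.two x hx
            by_cases hxp : x = p
            · -- `x = p` is adjacent to `u` and not to `v`
              rw [hxp] at k1 k2 k3 hxu hxv ⊢
              have hpu' : Adj (ctr u v ∘ src) (ctr u v ∘ dst) p u :=
                adj_symm' ((adj_u_iff hpu hxv).2 (Or.inl hup))
              have hgen : ∀ c ∈ C, c ≠ u → Adj (ctr u v ∘ src) (ctr u v ∘ dst) p c →
                  (∀ y ∈ C, Adj (ctr u v ∘ src) (ctr u v ∘ dst) p y → y = c ∨ y = u) →
                  ∃ a ∈ insert v C, ∃ b ∈ insert v C, a ≠ b ∧ Adj src dst p a ∧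
                    Adj src dst p b ∧ ∀ y ∈ insert v C, Adj src dst p y → y = a ∨ y = b := by
                intro c hc hcu hpc hall
                refine ⟨c, mem_insert_of_mem hc, u, mem_insert_of_mem huC, hcu,
                  (adj_iff hpu hxv hcu (hvC c hc)).1 hpc, adj_symm' hup, ?_⟩
                intro y hy hpy
                rcases mem_insert.1 hy with rfl | hy
                · exact absurd (adj_symm' hpy) hvp
                · by_cases hyu : y = u
                  · exact Or.inr hyu
                  · exact hall y hy ((adj_iff hpu hxv hyu (hvC y hy)).2 hpy)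
              rcases k3 u huC hpu' with hua | hub
              · refine hgen b hb (fun h => hab (hua.symm.trans h.symm)) k2 ?_
                intro y hy hpy
                rcases k3 y hy hpy with h | h
                · exact Or.inr (h.trans hua.symm)
                · exact Or.inl h
              · refine hgen a ha (fun h => hab (h.trans hub)) k1 ?_
                intro y hy hpy
                rcases k3 y hy hpy with h | h
                · exact Or.inl h
                · exact Or.inr (h.trans hub.symm)
            by_cases hxq : x = q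
            · -- `x = q` is adjacent to `v` and not to `u`
              rw [hxq] at k1 k2 k3 hxu hxv ⊢
              have hqu' : Adj (ctr u v ∘ src) (ctr u v ∘ dst) q u :=
                adj_symm' ((adj_u_iff hqu hxv).2 (Or.inr hvq))
              have hgen : ∀ c ∈ C, c ≠ u → Adj (ctr u v ∘ src) (ctr u v ∘ dst) q c →
                  (∀ y ∈ C, Adj (ctr u v ∘ src) (ctr u v ∘ dst) q y → y = c ∨ y = u) →
                  ∃ a ∈ insert v C, ∃ b ∈ insert v C, a ≠ b ∧ Adj src dst q a ∧
                    Adj src dst q b ∧ ∀ y ∈ insert v C, Adj src dst q y → y = a ∨ y = b := by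
                intro c hc hcu hpc hall
                refine ⟨c, mem_insert_of_mem hc, v, mem_insert_self _ _, hvC c hc,
                  (adj_iff hqu hxv hcu (hvC c hc)).1 hpc, adj_symm' hvq, ?_⟩
                intro y hy hpy
                rcases mem_insert.1 hy with rfl | hy
                · exact Or.inr rfl
                · by_cases hyu : y = u
                  · rw [hyu] at hpy
                    exact absurd (adj_symm' hpy) huq
                  · rcases hall y hy ((adj_iff hqu hxv hyu (hvC y hy)).2 hpy) with h | h
                    · exact Or.inl h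
                    · exact absurd h hyu
              rcases k3 u huC hqu' with hua | hub
              · refine hgen b hb (fun h => hab (hua.symm.trans h.symm)) k2 ?_
                intro y hy hpy
                rcases k3 y hy hpy with h | h
                · exact Or.inr (h.trans hua.symm)
                · exact Or.inl h
              · refine hgen a ha (fun h => hab (h.trans hub)) k1 ?_
                intro y hy hpy
                rcases k3 y hy hpy with h | h
                · exact Or.inl h
                · exact Or.inr (h.trans hub.symm)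
            -- other vertices
            have hno : ¬ (Adj src dst u x ∨ Adj src dst v x) := by
              intro h
              rcases h3' x hx hxu h with h | h
              · exact hxp h
              · exact hxq h
            push Not at hno
            have hau : a ≠ u := by
              rintro rfl
              have h6 := adj_symm' k1
              rw [adj_u_iff hxu hxv] at h6
              rcases h6 with h6 | h6
              · exact hno.1 h6
              · exact hno.2 h6
            have hbu : b ≠ u := by
              rintro rfl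
              have h6 := adj_symm' k2
              rw [adj_u_iff hxu hxv] at h6
              rcases h6 with h6 | h6
              · exact hno.1 h6
              · exact hno.2 h6
            refine ⟨a, mem_insert_of_mem ha, b, mem_insert_of_mem hb, hab,
              (adj_iff hxu hxv hau (hvC a ha)).1 k1, (adj_iff hxu hxv hbu (hvC b hb)).1 k2, ?_⟩
            intro y hy hxy
            rcases mem_insert.1 hy with rfl | hy
            · exact absurd (adj_symm' hxy) hno.2
            · by_cases hyu : y = u
              · rw [hyu] at hxy
                exact absurd (adj_symm' hxy) hno.1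
              · exact k3 y hy ((adj_iff hxu hxv hyu (hvC y hy)).2 hxy)
      · intro A hA1 hA2 hA3
        have huvA : u ∈ A ↔ v ∈ A :=
          ⟨fun h => hA3 u h v (mem_insert_self _ _) huv,
            fun h => hA3 v h u (mem_insert_of_mem huC) (adj_symm' huv)⟩
        have h5 := hC.conn (A.erase v) (by
          intro x hx
          rw [mem_erase] at hx
          rcases mem_insert.1 (hA1 hx.2) with h | h
          · exact absurd h hx.1
          · exact h) (by
          obtain ⟨a, ha⟩ := hA2
          by_cases hav : a = v
          · rw [hav] at ha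
            exact ⟨u, mem_erase.2 ⟨hne, huvA.2 ha⟩⟩
          · exact ⟨a, mem_erase.2 ⟨hav, ha⟩⟩) (by
          intro a ha b hb hab
          rw [mem_erase] at ha ⊢
          refine ⟨hvC b hb, ?_⟩
          by_cases hau : a = u
          · rw [hau] at hab ha
            have hbu : b ≠ u := hab.1.symm
            rw [adj_u_iff hbu (hvC b hb)] at hab
            rcases h3' b hb hbu hab with rfl | rfl
            · exact hA3 _ ha.2 _ (mem_insert_of_mem hb) hup
            · exact hA3 _ (huvA.1 ha.2) _ (mem_insert_of_mem hb) hvq
          · have haC : a ∈ C := by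
              rcases mem_insert.1 (hA1 ha.2) with h | h
              · exact absurd h ha.1
              · exact h
            by_cases hbu : b = u
            · subst hbu
              have h6 := adj_symm' hab
              rw [adj_u_iff hau ha.1] at h6
              rcases h3' a haC hau h6 with rfl | rfl
              · exact hA3 _ ha.2 _ (mem_insert_of_mem hb) (adj_symm' hup)
              · exact huvA.2 (hA3 _ ha.2 _ (mem_insert_self _ _) (adj_symm' hvq))
            · exact hA3 _ ha.2 _ (mem_insert_of_mem hb)
                ((adj_iff hau ha.1 hbu (hvC b hb)).1 hab))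
        have huA : u ∈ A := by
          have : u ∈ A.erase v := by
            rw [h5]
            exact huC
          exact mem_of_mem_erase this
        rw [← h5, insert_erase (huvA.1 huA)]
    refine le_trans ?_ (h _ hH)
    by_cases hu3 : 3 ≤ dg src dst u
    · refine card_le_card ?_
      intro x hx
      rw [mem_filter] at hx ⊢
      refine ⟨mem_insert_of_mem hx.1, ?_⟩
      by_cases hxu : x = u
      · rw [hxu]
        exact hu3
      · exact hdg x hxu hx.2
    · refine card_le_card_of_injOn (fun x => if x = u then v else x) ?_ ?_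
      · intro x hx
        rw [mem_coe, mem_filter] at hx
        rw [mem_coe, mem_filter]
        dsimp only
        by_cases hxu : x = u
        · rw [if_pos hxu]
          refine ⟨mem_insert_self _ _, ?_⟩
          have h6 : dg (ctr u v ∘ src) (ctr u v ∘ dst) u + 2 ≤ dg src dst u + dg src dst v :=
            Ord.dg_ctr_u src dst e hne
          have h7 := hx.2
          rw [hxu] at h7
          omega
        · rw [if_neg hxu]
          exact ⟨mem_insert_of_mem hx.1, hdg x hxu hx.2⟩
      · intro a ha b hb hab
        have ha' := (mem_filter.1 (mem_coe.1 ha)).1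
        have hb' := (mem_filter.1 (mem_coe.1 hb)).1
        dsimp only at hab
        split_ifs at hab with h5 h6 h6
        · rw [h5, h6]
        · exact absurd hab.symm (hvC b hb')
        · exact absurd hab (hvC a ha')
        · exact hab
  · have hH : Hole (Adj src dst) C := by
      have h5 := hC.map (Ad := Adj src dst) id (fun a _ b _ hab => hab) (by
        intro a ha b hb
        exact adj_iff (fun h => huC (h ▸ ha)) (hvC a ha) (fun h => huC (h ▸ hb)) (hvC b hb))
      rwa [image_id] at h5
    refine le_trans (card_le_card ?_) (h C hH)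
    intro x hx
    rw [mem_filter] at hx ⊢
    exact ⟨hx.1, hdg x (fun h => huC (h ▸ hx.1)) hx.2⟩

end cls

end Pool.Agent.R129.Hole
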