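import Pool.Agent.R129.Hole.Cls

/-!
# Long induced circuits in graphs of girth at least twelve
-/

set_option autoImplicit false
set_option linter.unusedSectionVars false
set_option linter.dupNamespace false

namespace Pool.Agent.R129.Hole

open Finset Pool.Agent.TH676.Z Pool.Agent.Y335.FL Pool.Agent.Y358.IN

section path

variable {V : Type} [Fintype V] [DecidableEq V] {G : SimpleGraph V}

/-- `p 0, ..., p m` is an induced path -/
def IP (G : SimpleGraph V) (m : ℕ) (p : ℕ → V) : Prop :=
  (∀ i ≤ m, ∀ j ≤ m, p i = p j → i = j) ∧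
    ∀ i ≤ m, ∀ j ≤ m, (G.Adj (p i) (p j) ↔ (i + 1 = j ∨ j + 1 = i))

/-- segments of the path -/
theorem seg {m : ℕ} {p : ℕ → V} (h : IP G m p) (i : ℕ) : ∀ j, i ≤ j → j ≤ m →
    ∃ w : G.Walk (p i) (p j), w.IsPath ∧ w.length = j - i ∧
      ∀ z ∈ w.support, ∃ k, i ≤ k ∧ k ≤ j ∧ z = p k := by
  intro j hij
  induction j, hij using Nat.le_induction with
  | base =>
    intro _
    refine ⟨SimpleGraph.Walk.nil, SimpleGraph.Walk.IsPath.nil, by simp, fun z hz => ?_⟩
    rw [SimpleGraph.Walk.support_nil, List.mem_singleton] at hz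
    exact ⟨i, le_rfl, le_rfl, hz⟩
  | succ j hij ih =>
    intro hjm
    obtain ⟨w, hw, hl, hs⟩ := ih (by omega)
    have hadj : G.Adj (p j) (p (j + 1)) := (h.2 j (by omega) (j + 1) hjm).2 (Or.inl rfl)
    have hn : p (j + 1) ∉ w.support := by
      intro hmem
      obtain ⟨k, _, hk2, hk3⟩ := hs _ hmem
      have := h.1 (j + 1) hjm k (by omega) hk3
      omega
    refine ⟨w.concat hadj, hw.concat hn hadj, ?_, ?_⟩
    · rw [SimpleGraph.Walk.length_concat, hl]
      omega
    · intro z hz
      rw [SimpleGraph.Walk.support_concat, List.mem_append, List.mem_singleton] at hz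
      rcases hz with hz | hz
      · obtain ⟨k, hk1, hk2, hk3⟩ := hs z hz
        exact ⟨k, hk1, by omega, hk3⟩
      · exact ⟨j + 1, by omega, le_rfl, hz⟩

/-- a path with two edges -/
theorem two_path {a y b : V} (h1 : G.Adj a y) (h2 : G.Adj y b) (hab : a ≠ b) :
    ∃ w : G.Walk a b, w.IsPath ∧ w.length = 2 ∧ y ∈ w.support := by
  refine ⟨SimpleGraph.Walk.cons h1 (SimpleGraph.Walk.cons h2 SimpleGraph.Walk.nil), ?_, rfl, ?_⟩
  · rw [SimpleGraph.Walk.cons_isPath_iff, SimpleGraph.Walk.cons_isPath_iff]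
    refine ⟨⟨SimpleGraph.Walk.IsPath.nil, ?_⟩, ?_⟩
    · rw [SimpleGraph.Walk.support_nil, List.mem_singleton]
      exact h2.ne
    · rw [SimpleGraph.Walk.support_cons, SimpleGraph.Walk.support_nil]
      simp only [List.mem_cons, List.not_mem_nil, or_false, not_or]
      exact ⟨h1.ne, hab⟩
  · simp

theorem gap1 (h12 : ∀ (w : V) (c : G.Walk w w), c.IsCycle → 12 ≤ c.length) {m : ℕ} {p : ℕ → V}
    (h : IP G m p) {y : V} (hy : ∀ k ≤ m, y ≠ p k) (hym : G.Adj y (p m)) {i : ℕ} (hi : i < m)
    (hyi : G.Adj y (p i)) : 10 ≤ m - i := by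
  by_contra hcon
  push Not at hcon
  obtain ⟨w, hw, hl, hs⟩ := seg h i m hi.le le_rfl
  have hne : p i ≠ p m := fun h' => by
    have := h.1 i hi.le m le_rfl h'
    omega
  obtain ⟨w', hw', hl', hs'⟩ := two_path hyi.symm hym hne
  have e := Ord.uniq h12 hw hw' (by omega)
  rw [← e] at hs'
  obtain ⟨k, _, hk2, hk3⟩ := hs y hs'
  exact hy k hk2 hk3

theorem gap2 (h12 : ∀ (w : V) (c : G.Walk w w), c.IsCycle → 12 ≤ c.length) {m : ℕ} {p : ℕ → V}
    (h : IP G m p) {y z : V} (hyz : y ≠ z) (hy : ∀ k ≤ m, y ≠ p k) (hz : ∀ k ≤ m, z ≠ p k)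
    (hym : G.Adj y (p m)) (hzm : G.Adj z (p m)) {i j : ℕ} (hi : i < m) (hj : j ≤ i)
    (hyi : G.Adj y (p i)) (hzj : G.Adj z (p j)) : 8 ≤ i - j := by
  by_contra hcon
  push Not at hcon
  obtain ⟨w, hw, hl, hs⟩ := seg h j i hj hi.le
  have hyw : y ∉ w.support := by
    intro hmem
    obtain ⟨k, _, hk2, hk3⟩ := hs _ hmem
    exact hy k (by omega) hk3
  have hmw : p m ∉ (w.concat hyi.symm).support := by
    intro hmem
    rw [SimpleGraph.Walk.support_concat, List.mem_append, List.mem_singleton] at hmem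
    rcases hmem with hmem | hmem
    · obtain ⟨k, _, hk2, hk3⟩ := hs _ hmem
      have := h.1 m le_rfl k (by omega) hk3
      omega
    · exact hy m le_rfl hmem.symm
  have hP := (hw.concat hyw hyi.symm).concat hmw hym
  have hne : p j ≠ p m := fun h' => by
    have := h.1 j (by omega) m le_rfl h'
    omega
  obtain ⟨w', hw', hl', hs'⟩ := two_path hzj.symm hzm hne
  have e := Ord.uniq h12 hP hw' (by
    rw [SimpleGraph.Walk.length_concat, SimpleGraph.Walk.length_concat]
    omega)
  rw [← e, SimpleGraph.Walk.support_concat, SimpleGraph.Walk.support_concat, List.mem_append,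
    List.mem_append, List.mem_singleton, List.mem_singleton] at hs'
  rcases hs' with (h1 | h1) | h1
  · obtain ⟨k, _, hk2, hk3⟩ := hs _ h1
    exact hz k (by omega) hk3
  · exact hyz h1.symm
  · exact hz m le_rfl h1

/-- the induced circuit -/
theorem hole_of {m : ℕ} {p : ℕ → V} (h : IP G m p) {y : V} (hy : ∀ k ≤ m, y ≠ p k)
    (hym : G.Adj y (p m)) {i : ℕ} (hi : i + 2 ≤ m) (hyi : G.Adj y (p i))
    (hno : ∀ j, i < j → j < m → ¬ G.Adj y (p j)) :
    Hole G.Adj (insert y ((Icc i m).image p)) ∧
      (insert y ((Icc i m).image p)).card = m - i + 2 := by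
  have hm : ∀ z, z ∈ insert y ((Icc i m).image p) ↔ z = y ∨ ∃ k, i ≤ k ∧ k ≤ m ∧ z = p k := by
    intro z
    rw [mem_insert, mem_image]
    constructor
    · rintro (h1 | ⟨k, hk, hkz⟩)
      · exact Or.inl h1
      · rw [mem_Icc] at hk
        exact Or.inr ⟨k, hk.1, hk.2, hkz.symm⟩
    · rintro (h1 | ⟨k, hk1, hk2, hk3⟩)
      · exact Or.inl h1
      · exact Or.inr ⟨k, mem_Icc.2 ⟨hk1, hk2⟩, hk3.symm⟩
  have hyk : ∀ k, i ≤ k → k ≤ m → (G.Adj y (p k) → k = i ∨ k = m) := by
    intro k hk1 hk2 hadj
    by_contra hcon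
    push Not at hcon
    exact hno k (by omega) (by omega) hadj
  constructor
  · refine ⟨⟨y, mem_insert_self _ _⟩, ?_, ?_⟩
    · intro x hx
      rcases (hm x).1 hx with rfl | ⟨k, hk1, hk2, rfl⟩
      · refine ⟨p i, (hm _).2 (Or.inr ⟨i, le_rfl, by omega, rfl⟩), p m,
          (hm _).2 (Or.inr ⟨m, by omega, le_rfl, rfl⟩), ?_, hyi, hym, ?_⟩
        · intro h'
          have := h.1 i (by omega) m le_rfl h'
          omega
        · intro z hz hadj
          rcases (hm z).1 hz with rfl | ⟨k, hk1, hk2, rfl⟩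
          · exact absurd rfl hadj.ne
          · rcases hyk k hk1 hk2 hadj with rfl | rfl
            · exact Or.inl rfl
            · exact Or.inr rfl
      · by_cases hki : k = i
        · subst hki
          refine ⟨p (k + 1), (hm _).2 (Or.inr ⟨k + 1, by omega, by omega, rfl⟩), y,
            mem_insert_self _ _, fun h' => hy (k + 1) (by omega) h'.symm,
            (h.2 k hk2 (k + 1) (by omega)).2 (Or.inl rfl), hyi.symm, ?_⟩
          intro z hz hadj
          rcases (hm z).1 hz with rfl | ⟨l, hl1, hl2, rfl⟩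
          · exact Or.inr rfl
          · left
            rcases (h.2 k hk2 l hl2).1 hadj with h1 | h1
            · rw [h1]
            · omega
        · by_cases hkm : k = m
          · subst hkm
            refine ⟨p (k - 1), (hm _).2 (Or.inr ⟨k - 1, by omega, by omega, rfl⟩), y,
              mem_insert_self _ _, fun h' => hy (k - 1) (by omega) h'.symm,
              (h.2 k hk2 (k - 1) (by omega)).2 (Or.inr (by omega)), hym.symm, ?_⟩
            intro z hz hadj
            rcases (hm z).1 hz with rfl | ⟨l, hl1, hl2, rfl⟩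
            · exact Or.inr rfl
            · left
              rcases (h.2 k hk2 l hl2).1 hadj with h1 | h1
              · omega
              · rw [← h1, Nat.add_sub_cancel]
          · refine ⟨p (k - 1), (hm _).2 (Or.inr ⟨k - 1, by omega, by omega, rfl⟩), p (k + 1),
              (hm _).2 (Or.inr ⟨k + 1, by omega, by omega, rfl⟩), ?_,
              (h.2 k hk2 (k - 1) (by omega)).2 (Or.inr (by omega)),
              (h.2 k hk2 (k + 1) (by omega)).2 (Or.inl rfl), ?_⟩
            · intro h'
              have := h.1 (k - 1) (by omega) (k + 1) (by omega) h'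
              omega
            · intro z hz hadj
              rcases (hm z).1 hz with rfl | ⟨l, hl1, hl2, rfl⟩
              · rcases hyk k hk1 hk2 hadj.symm with h1 | h1
                · exact absurd h1 hki
                · exact absurd h1 hkm
              · rcases (h.2 k hk2 l hl2).1 hadj with h1 | h1
                · right
                  rw [h1]
                · left
                  rw [← h1, Nat.add_sub_cancel]
    · intro A hA1 hA2 hA3
      -- `p i ∈ A`
      have hdown : ∀ d k, i ≤ k → k ≤ m → k = i + d → p k ∈ A → p i ∈ A := by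
        intro d
        induction d with
        | zero =>
          intro k _ _ hk hA
          rw [hk, Nat.add_zero] at hA
          exact hA
        | succ d ih =>
          intro k hk1 hk2 hk hA
          refine ih (k - 1) (by omega) (by omega) (by omega) ?_
          refine hA3 _ hA _ ((hm _).2 (Or.inr ⟨k - 1, by omega, by omega, rfl⟩)) ?_
          exact (h.2 k hk2 (k - 1) (by omega)).2 (Or.inr (by omega))
      have hiA : p i ∈ A := by
        obtain ⟨a, ha⟩ := hA2
        rcases (hm a).1 (hA1 ha) with rfl | ⟨k, hk1, hk2, rfl⟩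
        · exact hA3 _ ha _ ((hm _).2 (Or.inr ⟨i, le_rfl, by omega, rfl⟩)) hyi
        · exact hdown (k - i) k hk1 hk2 (by omega) ha
      have hup : ∀ k, i ≤ k → k ≤ m → p k ∈ A := by
        intro k hk
        induction k, hk using Nat.le_induction with
        | base => exact fun _ => hiA
        | succ k hk ih =>
          intro hkm
          refine hA3 _ (ih (by omega)) _ ((hm _).2 (Or.inr ⟨k + 1, by omega, hkm, rfl⟩)) ?_
          exact (h.2 k (by omega) (k + 1) hkm).2 (Or.inl rfl)
      refine Subset.antisymm hA1 ?_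
      intro z hz
      rcases (hm z).1 hz with rfl | ⟨k, hk1, hk2, rfl⟩
      · exact hA3 _ hiA _ (mem_insert_self _ _) hyi.symm
      · exact hup k hk1 hk2
  · rw [card_insert_of_notMem, card_image_of_injOn]
    · rw [Nat.card_Icc]
      omega
    · intro a ha b hb hab
      rw [mem_coe, mem_Icc] at ha hb
      exact h.1 a ha.2 b hb.2 hab
    · intro hmem
      obtain ⟨k, hk, hky⟩ := mem_image.1 hmem
      exact hy k (mem_Icc.1 hk).2 hky.symm

theorem IP.extend {m : ℕ} {p : ℕ → V} (h : IP G m p) {y : V} (hy : ∀ k ≤ m, y ≠ p k)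
    (hym : G.Adj y (p m)) (hno : ∀ j < m, ¬ G.Adj y (p j)) :
    IP G (m + 1) (Function.update p (m + 1) y) := by
  have hlt : ∀ i ≤ m, Function.update p (m + 1) y i = p i := fun i hi =>
    Function.update_of_ne (by omega) _ _
  have hlast : Function.update p (m + 1) y (m + 1) = y := Function.update_self _ _ _
  constructor
  · intro i hi j hj hij
    by_cases h1 : i ≤ m
    · by_cases h2 : j ≤ m
      · rw [hlt i h1, hlt j h2] at hij
        exact h.1 i h1 j h2 hij
      · have h3 : j = m + 1 := by omega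
        rw [h3, hlt i h1, hlast] at hij
        exact absurd hij.symm (hy i h1)
    · have h3 : i = m + 1 := by omega
      by_cases h2 : j ≤ m
      · rw [h3, hlt j h2, hlast] at hij
        exact absurd hij (hy j h2)
      · omega
  · intro i hi j hj
    by_cases h1 : i ≤ m
    · by_cases h2 : j ≤ m
      · rw [hlt i h1, hlt j h2]
        exact h.2 i h1 j h2
      · have h3 : j = m + 1 := by omega
        rw [h3, hlt i h1, hlast]
        constructor
        · intro hadj
          by_cases h4 : i = m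
          · left
            rw [h4]
          · exact absurd hadj.symm (hno i (by omega))
        · intro h4
          have h5 : i = m := by omega
          rw [h5]
          exact hym.symm
    · have h3 : i = m + 1 := by omega
      by_cases h2 : j ≤ m
      · rw [h3, hlt j h2, hlast]
        constructor
        · intro hadj
          by_cases h4 : j = m
          · right
            rw [h4]
          · exact absurd hadj (hno j (by omega))
        · intro h4
          have h5 : j = m := by omega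
          rw [h5]
          exact hym
      · have h4 : j = m + 1 := by omega
        rw [h3, h4]
        constructor
        · intro hadj
          exact absurd rfl hadj.ne
        · intro h5
          omega

theorem IP.init {m n : ℕ} {p : ℕ → V} (h : IP G m p) (hn : n ≤ m) : IP G n p :=
  ⟨fun i hi j hj => h.1 i (hi.trans hn) j (hj.trans hn),
    fun i hi j hj => h.2 i (hi.trans hn) j (hj.trans hn)⟩

/-- the distance of the neighbours on the path of two vertices which hang at the end of the path -/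
theorem gap (h12 : ∀ (w : V) (c : G.Walk w w), c.IsCycle → 12 ≤ c.length) {n : ℕ} {p : ℕ → V}
    (h : IP G n p) {y z : V} {A : G.Walk y (p n)} {B : G.Walk z (p n)} (hA : A.IsPath)
    (hB : B.IsPath) (hA' : ∀ u ∈ A.support, u = p n ∨ ∀ k ≤ n, u ≠ p k)
    (hB' : ∀ u ∈ B.support, u = p n ∨ ∀ k ≤ n, u ≠ p k) (hz : ∀ k ≤ n, z ≠ p k)
    (hzA : z ∉ A.support) {i j : ℕ} (hi : i < n) (hj : j ≤ i)
    (hyi : G.Adj y (p i)) (hzj : G.Adj z (p j)) : 12 ≤ (i - j) + 2 + A.length + B.length := by
  by_contra hcon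
  push Not at hcon
  obtain ⟨w, hw, hl, hs⟩ := seg h j i hj hi.le
  have hP : ((w.concat hyi.symm).append A).IsPath := by
    rw [SimpleGraph.Walk.isPath_def, SimpleGraph.Walk.support_append]
    rw [SimpleGraph.Walk.support_concat, List.append_assoc]
    refine List.nodup_append'.2 ⟨hw.support_nodup, ?_, ?_⟩
    · have h1 : [y] ++ A.support.tail = A.support := by
        rw [List.singleton_append, SimpleGraph.Walk.cons_tail_support]
      rw [h1]
      exact hA.support_nodup
    · have h1 : [y] ++ A.support.tail = A.support := by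
        rw [List.singleton_append, SimpleGraph.Walk.cons_tail_support]
      rw [h1]
      intro u hu hu'
      obtain ⟨k, _, hk2, hk3⟩ := hs u hu
      rcases hA' u hu' with h2 | h2
      · rw [hk3] at h2
        have := h.1 k (by omega) n le_rfl h2
        omega
      · exact h2 k (by omega) hk3
  have hQ : (SimpleGraph.Walk.cons hzj.symm B).IsPath := by
    rw [SimpleGraph.Walk.cons_isPath_iff]
    refine ⟨hB, fun hmem => ?_⟩
    rcases hB' _ hmem with h2 | h2
    · have := h.1 j (by omega) n le_rfl h2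
      omega
    · exact h2 j (by omega) rfl
  have e := Ord.uniq h12 hP hQ (by
    rw [SimpleGraph.Walk.length_append, SimpleGraph.Walk.length_concat,
      SimpleGraph.Walk.length_cons]
    omega)
  have hzmem : z ∈ (SimpleGraph.Walk.cons hzj.symm B).support := by
    rw [SimpleGraph.Walk.support_cons]
    exact List.mem_cons_of_mem _ B.start_mem_support
  rw [← e, SimpleGraph.Walk.mem_support_append_iff, SimpleGraph.Walk.support_concat,
    List.mem_append, List.mem_singleton] at hzmem
  rcases hzmem with (h1 | h1) | h1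
  · obtain ⟨k, _, hk2, hk3⟩ := hs _ h1
    exact hz k (by omega) hk3
  · exact hzA (h1 ▸ A.start_mem_support)
  · exact hzA h1

/-- a nearest neighbour on the path -/
theorem nearest {m : ℕ} {p : ℕ → V} {y : V} (hex : ∃ j < m, G.Adj y (p j)) :
    ∃ i < m, G.Adj y (p i) ∧ ∀ j, i < j → j < m → ¬ G.Adj y (p j) := by
  classical
  obtain ⟨j, hj, hyj⟩ := hex
  have hP : ∃ i, (fun i => i < m ∧ G.Adj y (p i)) i ∧
      ∀ l, l ≤ m → (fun i => i < m ∧ G.Adj y (p i)) l → l ≤ i := by
    refine ⟨Nat.findGreatest (fun i => i < m ∧ G.Adj y (p i)) m, ?_, ?_⟩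
    · exact Nat.findGreatest_spec (P := fun i => i < m ∧ G.Adj y (p i)) hj.le ⟨hj, hyj⟩
    · intro l hlm hl
      exact Nat.le_findGreatest hlm hl
  obtain ⟨i, ⟨hi, hyi⟩, hmaxi⟩ := hP
  refine ⟨i, hi, hyi, fun l hl1 hl2 hadj => ?_⟩
  have := hmaxi l hl2.le ⟨hl2, hadj⟩
  omega

/-- the two other neighbours of the end of a longest induced path -/
theorem ends
    (h3 : ∀ x y, G.Adj x y → ∃ a b c, G.Adj x a ∧ G.Adj x b ∧ G.Adj x c ∧ a ≠ b ∧ a ≠ c ∧ b ≠ c)
    {m : ℕ} (hm1 : 1 ≤ m) {p : ℕ → V} (hp : IP G m p)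
    (hmax : ∀ m', (∃ p, IP G m' p) → m' ≤ m) :
    ∃ y z i j, y ≠ z ∧ (∀ k ≤ m, y ≠ p k) ∧ (∀ k ≤ m, z ≠ p k) ∧ G.Adj y (p m) ∧
      G.Adj z (p m) ∧ i < m ∧ j < m ∧ G.Adj y (p i) ∧ G.Adj z (p j) ∧
      (∀ l, i < l → l < m → ¬ G.Adj y (p l)) ∧ ∀ l, j < l → l < m → ¬ G.Adj z (p l) := by
  have hoff : ∀ z, G.Adj (p m) z → z ≠ p (m - 1) → ∀ k ≤ m, z ≠ p k := by
    intro z hz hne k hk hzk
    rw [hzk] at hz hne
    rcases (hp.2 m le_rfl k hk).1 hz with h | h
    · omega
    · apply hne
      rw [← h, Nat.add_sub_cancel]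
  have htwo : ∃ y z, G.Adj y (p m) ∧ G.Adj z (p m) ∧ y ≠ z ∧ (∀ k ≤ m, y ≠ p k) ∧
      ∀ k ≤ m, z ≠ p k := by
    obtain ⟨a, b, c, ha, hb, hc, hab, hac, hbc⟩ := h3 (p m) (p (m - 1))
      ((hp.2 m le_rfl (m - 1) (by omega)).2 (Or.inr (by omega)))
    by_cases h4 : a = p (m - 1)
    · exact ⟨b, c, hb.symm, hc.symm, hbc, hoff b hb (fun h => hab (h4.trans h.symm)),
        hoff c hc (fun h => hac (h4.trans h.symm))⟩
    · by_cases h5 : b = p (m - 1)
      · exact ⟨a, c, ha.symm, hc.symm, hac, hoff a ha h4,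
          hoff c hc (fun h => hbc (h5.trans h.symm))⟩
      · exact ⟨a, b, ha.symm, hb.symm, hab, hoff a ha h4, hoff b hb h5⟩
  have hlast : ∀ y, G.Adj y (p m) → (∀ k ≤ m, y ≠ p k) →
      ∃ i < m, G.Adj y (p i) ∧ ∀ j, i < j → j < m → ¬ G.Adj y (p j) := by
    intro y hym hy
    refine nearest ?_
    by_contra hcon
    push Not at hcon
    have := hmax (m + 1) ⟨_, hp.extend hy hym hcon⟩
    omega
  obtain ⟨y, z, hym, hzm, hyz, hy, hz⟩ := htwo
  obtain ⟨i, hi, hyi, hi'⟩ := hlast y hym hy
  obtain ⟨j, hj, hzj, hj'⟩ := hlast z hzm hz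
  exact ⟨y, z, i, j, hyz, hy, hz, hym, hzm, hi, hj, hyi, hzj, hi', hj'⟩

/-- no triangles -/
theorem no_tri (h12 : ∀ (w : V) (c : G.Walk w w), c.IsCycle → 12 ≤ c.length) {a b c : V}
    (h1 : G.Adj a b) (h2 : G.Adj b c) (h3 : G.Adj a c) : False := by
  obtain ⟨w, hw, hl, _⟩ := two_path h1 h2 h3.ne
  have e := Ord.uniq h12 hw (Ord.edge_path h3) (by
    rw [hl]
    simp)
  have e2 := congrArg SimpleGraph.Walk.length e
  rw [hl] at e2
  simp at e2

/-- no quadrangles -/
theorem no_quad (h12 : ∀ (w : V) (c : G.Walk w w), c.IsCycle → 12 ≤ c.length) {a b c d : V}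
    (h1 : G.Adj a b) (h2 : G.Adj b c) (h3 : G.Adj a d) (h4 : G.Adj d c) (hac : a ≠ c) :
    b = d := by
  by_contra hbd
  have hp1 : (SimpleGraph.Walk.cons h1 (SimpleGraph.Walk.cons h2 SimpleGraph.Walk.nil)).IsPath := by
    rw [SimpleGraph.Walk.cons_isPath_iff, SimpleGraph.Walk.cons_isPath_iff]
    refine ⟨⟨SimpleGraph.Walk.IsPath.nil, ?_⟩, ?_⟩
    · rw [SimpleGraph.Walk.support_nil, List.mem_singleton]
      exact h2.ne
    · rw [SimpleGraph.Walk.support_cons, SimpleGraph.Walk.support_nil]
      simp only [List.mem_cons, List.not_mem_nil, or_false, not_or]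
      exact ⟨h1.ne, hac⟩
  have hp2 : (SimpleGraph.Walk.cons h3 (SimpleGraph.Walk.cons h4 SimpleGraph.Walk.nil)).IsPath := by
    rw [SimpleGraph.Walk.cons_isPath_iff, SimpleGraph.Walk.cons_isPath_iff]
    refine ⟨⟨SimpleGraph.Walk.IsPath.nil, ?_⟩, ?_⟩
    · rw [SimpleGraph.Walk.support_nil, List.mem_singleton]
      exact h4.ne
    · rw [SimpleGraph.Walk.support_cons, SimpleGraph.Walk.support_nil]
      simp only [List.mem_cons, List.not_mem_nil, or_false, not_or]
      exact ⟨h3.ne, hac⟩
  have e := Ord.uniq h12 hp1 hp2 (by simp)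
  have e2 := congrArg SimpleGraph.Walk.snd e
  rw [SimpleGraph.Walk.snd_cons, SimpleGraph.Walk.snd_cons] at e2
  exact hbd e2

/-- **Long induced circuits.** -/
theorem long (h12 : ∀ (w : V) (c : G.Walk w w), c.IsCycle → 12 ≤ c.length)
    (h3 : ∀ x y, G.Adj x y → ∃ a b c, G.Adj x a ∧ G.Adj x b ∧ G.Adj x c ∧ a ≠ b ∧ a ≠ c ∧ b ≠ c)
    {x y : V} (hxy : G.Adj x y) : ∃ C, Hole G.Adj C ∧ 26 ≤ C.card := by
  classical
  -- a longest induced path
  have hbd : ∀ m p, IP G m p → m + 1 ≤ Fintype.card V := by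
    intro m p h
    have h1 : ((range (m + 1)).image p).card = m + 1 := by
      rw [card_image_of_injOn, card_range]
      intro a ha b hb hab
      rw [mem_coe, mem_range] at ha hb
      exact h.1 a (by omega) b (by omega) hab
    rw [← h1]
    exact card_le_univ _
  have h1 : IP G 1 (fun i => if i = 0 then x else y) := by
    have hne := hxy.ne
    constructor
    · intro i hi j hj hij
      interval_cases i <;> interval_cases j <;> simp_all
    · intro i hi j hj
      interval_cases i <;> interval_cases j <;> simp_all [hxy.symm]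
  obtain ⟨m, ⟨p, hp⟩, hmax⟩ : ∃ m, (∃ p, IP G m p) ∧ ∀ m', (∃ p, IP G m' p) → m' ≤ m := by
    refine ⟨Nat.findGreatest (fun m => ∃ p, IP G m p) (Fintype.card V), ?_, ?_⟩
    · exact Nat.findGreatest_spec (P := fun m => ∃ p, IP G m p)
        (m := 1) (by have := hbd 1 _ h1; omega) ⟨_, h1⟩
    · intro m' hm'
      obtain ⟨p, hp⟩ := hm'
      exact Nat.le_findGreatest (by have := hbd m' p hp; omega) ⟨p, hp⟩
  have hm1 : 1 ≤ m := hmax 1 ⟨_, h1⟩
  obtain ⟨y, z, i, j, hyz, hy, hz, hym, hzm, hi, hj, hyi, hzj, hi', hj'⟩ := ends h3 hm1 hp hmax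
  have g1 := gap1 h12 hp hy hym hi hyi
  have g2 := gap1 h12 hp hz hzm hj hzj
  have g3 : 8 ≤ i - j ∨ 8 ≤ j - i := by
    rcases le_total j i with hle | hle
    · exact Or.inl (gap2 h12 hp hyz hy hz hym hzm hi hle hyi hzj)
    · exact Or.inr (gap2 h12 hp hyz.symm hz hy hzm hym hj hle hzj hyi)
  by_contra hcon
  push Not at hcon
  -- the circuits through `y` and `z`
  have b1 : m - i + 2 < 26 := by
    obtain ⟨h5, h6⟩ := hole_of hp hy hym (by omega) hyi hi'
    have := hcon _ h5
    omega
  have b2 : m - j + 2 < 26 := by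
    obtain ⟨h5, h6⟩ := hole_of hp hz hzm (by omega) hzj hj'
    have := hcon _ h5
    omega
  -- the third neighbour of the last but one vertex
  obtain ⟨n, rfl⟩ : ∃ n, m = n + 1 := ⟨m - 1, by omega⟩
  have hp' := hp.init (Nat.le_succ n)
  have hn1 : 1 ≤ n := by omega
  have hnm : G.Adj (p n) (p (n + 1)) := (hp.2 n (by omega) (n + 1) le_rfl).2 (Or.inl rfl)
  obtain ⟨w, hw, hw1, hw2⟩ : ∃ w, G.Adj (p n) w ∧ w ≠ p (n - 1) ∧ w ≠ p (n + 1) := by
    obtain ⟨a, b, c, ha, hb, hc, hab, hac, hbc⟩ := h3 _ _ hnm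
    by_cases ha1 : a = p (n - 1)
    · by_cases hb1 : b = p (n + 1)
      · exact ⟨c, hc, fun h => hac (ha1.trans h.symm), fun h => hbc (hb1.trans h.symm)⟩
      · exact ⟨b, hb, fun h => hab (ha1.trans h.symm), hb1⟩
    · by_cases ha2 : a = p (n + 1)
      · by_cases hb1 : b = p (n - 1)
        · exact ⟨c, hc, fun h => hbc (hb1.trans h.symm), fun h => hac (ha2.trans h.symm)⟩
        · exact ⟨b, hb, hb1, fun h => hab (ha2.trans h.symm)⟩
      · exact ⟨a, ha, ha1, ha2⟩
  have hwoff : ∀ k ≤ n + 1, w ≠ p k := by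
    intro k hk hwk
    rw [hwk] at hw hw1 hw2
    rcases (hp.2 n (by omega) k hk).1 hw with h | h
    · exact hw2 (by rw [h])
    · exact hw1 (by rw [← h, Nat.add_sub_cancel])
  have hwn : ∀ k ≤ n, w ≠ p k := fun k hk => hwoff k (by omega)
  have hwx : ¬ G.Adj w (p (n + 1)) := fun h => no_tri h12 hw h hnm
  -- the chains
  have chain : ∀ u, G.Adj u (p (n + 1)) → (∀ k ≤ n + 1, u ≠ p k) →
      ∃ A : G.Walk u (p n), A.IsPath ∧ A.length = 2 ∧
        (∀ t ∈ A.support, t = p n ∨ ∀ k ≤ n, t ≠ p k) ∧
        ∀ t ∈ A.support, t = u ∨ t = p (n + 1) ∨ t = p n := by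
    intro u hu huoff
    have hne : u ≠ p n := huoff n (by omega)
    refine ⟨SimpleGraph.Walk.cons hu (SimpleGraph.Walk.cons hnm.symm SimpleGraph.Walk.nil), ?_,
      rfl, ?_, ?_⟩
    · rw [SimpleGraph.Walk.cons_isPath_iff, SimpleGraph.Walk.cons_isPath_iff]
      refine ⟨⟨SimpleGraph.Walk.IsPath.nil, ?_⟩, ?_⟩
      · rw [SimpleGraph.Walk.support_nil, List.mem_singleton]
        exact hnm.ne.symm
      · rw [SimpleGraph.Walk.support_cons, SimpleGraph.Walk.support_nil]
        simp only [List.mem_cons, List.not_mem_nil, or_false, not_or]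
        exact ⟨hu.ne, hne⟩
    · intro t ht
      simp only [SimpleGraph.Walk.support_cons, SimpleGraph.Walk.support_nil, List.mem_cons,
        List.not_mem_nil, or_false] at ht
      rcases ht with rfl | rfl | rfl
      · exact Or.inr fun k hk => huoff k (by omega)
      · right
        intro k hk h
        have := hp.1 (n + 1) le_rfl k (by omega) h
        omega
      · exact Or.inl rfl
    · intro t ht
      simpa only [SimpleGraph.Walk.support_cons, SimpleGraph.Walk.support_nil, List.mem_cons,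
        List.not_mem_nil, or_false] using ht
  obtain ⟨A, hA, hAl, hA1, hA2⟩ := chain y hym hy
  obtain ⟨B, hB, hBl, hB1, hB2⟩ := chain z hzm hz
  by_cases hleaf : ∃ l < n, G.Adj w (p l)
  · -- `w` has a neighbour on the path
    obtain ⟨l, hl, hwl, hl'⟩ := nearest hleaf
    have g4 := gap1 h12 hp' hwn hw.symm hl hwl
    have b3 : n - l + 2 < 26 := by
      obtain ⟨h5, h6⟩ := hole_of hp' hwn hw.symm (by omega) hwl hl'
      have := hcon _ h5
      omega
    -- the chain from `w`
    let W : G.Walk w (p n) := SimpleGraph.Walk.cons hw.symm SimpleGraph.Walk.nil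
    have hW : W.IsPath := Ord.edge_path hw.symm
    have hWl : W.length = 1 := rfl
    have hW2 : ∀ t ∈ W.support, t = w ∨ t = p n := by
      intro t ht
      simpa [W] using ht
    have hW1 : ∀ t ∈ W.support, t = p n ∨ ∀ k ≤ n, t ≠ p k := by
      intro t ht
      rcases hW2 t ht with rfl | rfl
      · exact Or.inr hwn
      · exact Or.inl rfl
    have hgen : ∀ (u : V) (s : ℕ) (D : G.Walk u (p n)), D.IsPath → D.length = 2 →
        (∀ t ∈ D.support, t = p n ∨ ∀ k ≤ n, t ≠ p k) →
        (∀ t ∈ D.support, t = u ∨ t = p (n + 1) ∨ t = p n) → G.Adj u (p (n + 1)) →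
        (∀ k ≤ n + 1, u ≠ p k) → s < n → G.Adj u (p s) → 7 ≤ s - l ∨ 7 ≤ l - s := by
      intro u s D hD hDl hD1 hD2 hu huoff hs hus
      have huw : u ≠ w := fun h => hwx (h ▸ hu)
      rcases le_total l s with hle | hle
      · left
        have := gap h12 hp' hD hW hD1 hW1 hwn (fun hmem => by
          rcases hD2 w hmem with h | h | h
          · exact huw h.symm
          · exact hwoff (n + 1) le_rfl h
          · exact hwn n le_rfl h) hs hle hus hwl
        omega
      · right
        have := gap h12 hp' hW hD hW1 hD1 (fun k hk => huoff k (by omega)) (fun hmem => by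
          rcases hW2 u hmem with h | h
          · exact huw h
          · exact huoff n (by omega) h) hl hle hwl hus
        omega
    have g5 := hgen y i A hA hAl hA1 hA2 hym hy (by omega) hyi
    have g6 := hgen z j B hB hBl hB1 hB2 hzm hz (by omega) hzj
    omega
  · -- another longest induced path
    push Not at hleaf
    have hq := hp'.extend hwn hw.symm hleaf
    set q := Function.update p (n + 1) w with hqd
    have hqlt : ∀ k ≤ n, q k = p k := fun k hk => Function.update_of_ne (by omega) _ _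
    have hqlast : q (n + 1) = w := Function.update_self _ _ _
    obtain ⟨y', z', i', j', hyz', hy', hz', hym', hzm', hi1, hj1, hyi', hzj', hi2, hj2⟩ :=
      ends h3 hm1 hq hmax
    have g4 := gap1 h12 hq hy' hym' hi1 hyi'
    have g5 := gap1 h12 hq hz' hzm' hj1 hzj'
    have g6 : 8 ≤ i' - j' ∨ 8 ≤ j' - i' := by
      rcases le_total j' i' with hle | hle
      · exact Or.inl (gap2 h12 hq hyz' hy' hz' hym' hzm' hi1 hle hyi' hzj')
      · exact Or.inr (gap2 h12 hq hyz'.symm hz' hy' hzm' hym' hj1 hle hzj' hyi')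
    have b3 : n + 1 - i' + 2 < 26 := by
      obtain ⟨h5, h6⟩ := hole_of hq hy' hym' (by omega) hyi' hi2
      have := hcon _ h5
      omega
    have b4 : n + 1 - j' + 2 < 26 := by
      obtain ⟨h5, h6⟩ := hole_of hq hz' hzm' (by omega) hzj' hj2
      have := hcon _ h5
      omega
    rw [hqlast] at hym' hzm'
    rw [hqlt i' (by omega)] at hyi'
    rw [hqlt j' (by omega)] at hzj'
    have chain' : ∀ u, G.Adj u w → (∀ k ≤ n + 1, u ≠ q k) →
        ∃ A : G.Walk u (p n), A.IsPath ∧ A.length = 2 ∧
          (∀ t ∈ A.support, t = p n ∨ ∀ k ≤ n, t ≠ p k) ∧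
          ∀ t ∈ A.support, t = u ∨ t = w ∨ t = p n := by
      intro u hu huoff
      have hoff : ∀ k ≤ n, u ≠ p k := fun k hk => by
        rw [← hqlt k hk]
        exact huoff k (by omega)
      refine ⟨SimpleGraph.Walk.cons hu (SimpleGraph.Walk.cons hw.symm SimpleGraph.Walk.nil), ?_,
        rfl, ?_, ?_⟩
      · rw [SimpleGraph.Walk.cons_isPath_iff, SimpleGraph.Walk.cons_isPath_iff]
        refine ⟨⟨SimpleGraph.Walk.IsPath.nil, ?_⟩, ?_⟩
        · rw [SimpleGraph.Walk.support_nil, List.mem_singleton]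
          exact hw.ne.symm
        · rw [SimpleGraph.Walk.support_cons, SimpleGraph.Walk.support_nil]
          simp only [List.mem_cons, List.not_mem_nil, or_false, not_or]
          exact ⟨hu.ne, hoff n le_rfl⟩
      · intro t ht
        simp only [SimpleGraph.Walk.support_cons, SimpleGraph.Walk.support_nil, List.mem_cons,
          List.not_mem_nil, or_false] at ht
        rcases ht with rfl | rfl | rfl
        · exact Or.inr hoff
        · exact Or.inr hwn
        · exact Or.inl rfl
      · intro t ht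
        simpa only [SimpleGraph.Walk.support_cons, SimpleGraph.Walk.support_nil, List.mem_cons,
          List.not_mem_nil, or_false] using ht
    obtain ⟨A', hA', hAl', hA1', hA2'⟩ := chain' y' hym' hy'
    obtain ⟨B', hB', hBl', hB1', hB2'⟩ := chain' z' hzm' hz'
    have hgen : ∀ (u : V) (s : ℕ) (D : G.Walk u (p n)), D.IsPath → D.length = 2 →
        (∀ t ∈ D.support, t = p n ∨ ∀ k ≤ n, t ≠ p k) →
        (∀ t ∈ D.support, t = u ∨ t = p (n + 1) ∨ t = p n) → G.Adj u (p (n + 1)) →
        (∀ k ≤ n + 1, u ≠ p k) → s < n → G.Adj u (p s) →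
        ∀ (u' : V) (s' : ℕ) (D' : G.Walk u' (p n)), D'.IsPath → D'.length = 2 →
        (∀ t ∈ D'.support, t = p n ∨ ∀ k ≤ n, t ≠ p k) →
        (∀ t ∈ D'.support, t = u' ∨ t = w ∨ t = p n) → G.Adj u' w →
        (∀ k ≤ n + 1, u' ≠ q k) → s' < n → G.Adj u' (p s') → 6 ≤ s - s' ∨ 6 ≤ s' - s := by
      intro u s D hD hDl hD1 hD2 hu huoff hs hus u' s' D' hD' hDl' hD1' hD2' hu' huoff' hs' hus'
      have hoff' : ∀ k ≤ n, u' ≠ p k := fun k hk => by
        rw [← hqlt k hk]
        exact huoff' k (by omega)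
      have huu : u ≠ u' := by
        rintro rfl
        have e := no_quad h12 hu'.symm hu hw.symm hnm (fun h => hwoff (n + 1) le_rfl h)
        exact hoff' n le_rfl e
      have hux : u' ≠ p (n + 1) := by
        rintro rfl
        exact hwx hu'.symm
      have huw : u ≠ w := fun h => hwx (h ▸ hu)
      rcases le_total s' s with hle | hle
      · left
        have := gap h12 hp' hD hD' hD1 hD1' hoff' (fun hmem => by
          rcases hD2 u' hmem with h | h | h
          · exact huu h.symm
          · exact hux h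
          · exact hoff' n le_rfl h) hs hle hus hus'
        omega
      · right
        have := gap h12 hp' hD' hD hD1' hD1 (fun k hk => huoff k (by omega)) (fun hmem => by
          rcases hD2' u hmem with h | h | h
          · exact huu h
          · exact huw h
          · exact huoff n (by omega) h) hs' hle hus' hus
        omega
    have k1 := hgen y i A hA hAl hA1 hA2 hym hy (by omega) hyi y' i' A' hA' hAl' hA1' hA2' hym'
      hy' (by omega) hyi'
    have k2 := hgen y i A hA hAl hA1 hA2 hym hy (by omega) hyi z' j' B' hB' hBl' hB1' hB2' hzm'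
      hz' (by omega) hzj'
    have k3 := hgen z j B hB hBl hB1 hB2 hzm hz (by omega) hzj y' i' A' hA' hAl' hA1' hA2' hym'
      hy' (by omega) hyi'
    have k4 := hgen z j B hB hBl hB1 hB2 hzm hz (by omega) hzj z' j' B' hB' hBl' hB1' hB2' hzm'
      hz' (by omega) hzj'
    omega

/-- an induced circuit without one of its vertices is an induced path -/
theorem Hole.path {C : Finset V} (hC : Hole G.Adj C) :
    ∃ m p, IP G m p ∧ C.card ≤ m + 2 := by
  classical
  have hbd : ∀ m p, IP G m p → m + 1 ≤ Fintype.card V := by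
    intro m p h
    have h1 : ((range (m + 1)).image p).card = m + 1 := by
      rw [card_image_of_injOn, card_range]
      intro a ha b hb hab
      rw [mem_coe, mem_range] at ha hb
      exact h.1 a (by omega) b (by omega) hab
    rw [← h1]
    exact card_le_univ _
  obtain ⟨x, hx⟩ := hC.ne
  obtain ⟨y, hy, _, _, _, hxy, _, _⟩ := hC.two x hx
  have h1 : IP G 1 (fun i => if i = 0 then x else y) := by
    have hne := hxy.ne
    constructor
    · intro i hi j hj hij
      interval_cases i <;> interval_cases j <;> simp_all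
    · intro i hi j hj
      interval_cases i <;> interval_cases j <;> simp_all [hxy.symm]
  have h1C : ∀ i ≤ 1, (fun i => if i = 0 then x else y) i ∈ C := by
    intro i hi
    interval_cases i <;> simp_all
  obtain ⟨m, ⟨p, hp, hpC⟩, hmax⟩ : ∃ m, (∃ p, IP G m p ∧ ∀ i ≤ m, p i ∈ C) ∧
      ∀ m', (∃ p, IP G m' p ∧ ∀ i ≤ m', p i ∈ C) → m' ≤ m := by
    refine ⟨Nat.findGreatest (fun m => ∃ p, IP G m p ∧ ∀ i ≤ m, p i ∈ C) (Fintype.card V), ?_, ?_⟩
    · exact Nat.findGreatest_spec (P := fun m => ∃ p, IP G m p ∧ ∀ i ≤ m, p i ∈ C)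
        (m := 1) (by have := hbd 1 _ h1; omega) ⟨_, h1, h1C⟩
    · intro m' hm'
      obtain ⟨p, hp, hpC⟩ := hm'
      exact Nat.le_findGreatest (by have := hbd m' p hp; omega) ⟨p, hp, hpC⟩
  have hm1 : 1 ≤ m := hmax 1 ⟨_, h1, h1C⟩
  refine ⟨m, p, hp, ?_⟩
  have hlast : G.Adj (p m) (p (m - 1)) := (hp.2 m le_rfl (m - 1) (by omega)).2 (Or.inr (by omega))
  -- the other neighbour of the end
  obtain ⟨z, hz, hmz, hzne, hall⟩ : ∃ z ∈ C, G.Adj (p m) z ∧ z ≠ p (m - 1) ∧
      ∀ u ∈ C, G.Adj (p m) u → u = z ∨ u = p (m - 1) := by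
    obtain ⟨a, ha, b, hb, hab, h2, h3, h4⟩ := hC.two _ (hpC m le_rfl)
    rcases h4 _ (hpC (m - 1) (by omega)) hlast with h5 | h5
    · exact ⟨b, hb, h3, fun h => hab (h5.symm.trans h.symm), fun u hu hmu => by
        rcases h4 u hu hmu with h | h
        · exact Or.inr (h.trans h5.symm)
        · exact Or.inl h⟩
    · exact ⟨a, ha, h2, fun h => hab (h.trans h5), fun u hu hmu => by
        rcases h4 u hu hmu with h | h
        · exact Or.inl h
        · exact Or.inr (h.trans h5.symm)⟩
  have hoff : ∀ k ≤ m, z ≠ p k := by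
    intro k hk hzk
    rw [hzk] at hmz hzne
    rcases (hp.2 m le_rfl k hk).1 hmz with h | h
    · omega
    · apply hzne
      rw [← h, Nat.add_sub_cancel]
  have hex : ∃ j < m, G.Adj z (p j) := by
    by_contra hcon
    push Not at hcon
    have := hmax (m + 1) ⟨_, hp.extend hoff hmz.symm hcon, fun i hi => by
      by_cases h : i ≤ m
      · rw [Function.update_of_ne (by omega)]
        exact hpC i h
      · rw [show i = m + 1 by omega, Function.update_self]
        exact hz⟩
    omega
  obtain ⟨j, hj, hzj⟩ := hex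
  -- a vertex with three neighbours
  have hthree : ∀ x ∈ C, ∀ a ∈ C, ∀ b ∈ C, ∀ c ∈ C, G.Adj x a → G.Adj x b → G.Adj x c → a ≠ b →
      a ≠ c → b ≠ c → False := by
    intro x hx a ha b hb c hc h2 h3 h4 hab hac hbc
    obtain ⟨s, _, t, _, _, _, _, h5⟩ := hC.two x hx
    rcases h5 a ha h2 with e1 | e1 <;> rcases h5 b hb h3 with e2 | e2 <;>
      rcases h5 c hc h4 with e3 | e3
    · exact hab (e1.trans e2.symm)
    · exact hab (e1.trans e2.symm)
    · exact hac (e1.trans e3.symm)
    · exact hbc (e2.trans e3.symm)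
    · exact hbc (e2.trans e3.symm)
    · exact hac (e1.trans e3.symm)
    · exact hab (e1.trans e2.symm)
    · exact hab (e1.trans e2.symm)
  have hj0 : j = 0 := by
    by_contra hj0
    refine hthree (p j) (hpC j hj.le) (p (j - 1)) (hpC _ (by omega)) (p (j + 1))
      (hpC _ (by omega)) z hz ((hp.2 j hj.le (j - 1) (by omega)).2 (Or.inr (by omega)))
      ((hp.2 j hj.le (j + 1) (by omega)).2 (Or.inl rfl)) hzj.symm ?_
      (fun h => hoff (j - 1) (by omega) h.symm) (fun h => hoff (j + 1) (by omega) h.symm)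
    intro h
    have := hp.1 (j - 1) (by omega) (j + 1) (by omega) h
    omega
  rw [hj0] at hzj hj
  have hA := hC.conn (insert z ((range (m + 1)).image p)) (by
    intro u hu
    rcases mem_insert.1 hu with rfl | hu
    · exact hz
    · obtain ⟨k, hk, rfl⟩ := mem_image.1 hu
      exact hpC k (by have := mem_range.1 hk; omega)) ⟨z, mem_insert_self _ _⟩ (by
    intro a ha b hb hab
    have hmem : ∀ k ≤ m, p k ∈ insert z ((range (m + 1)).image p) := fun k hk =>
      mem_insert_of_mem (mem_image_of_mem _ (mem_range.2 (by omega)))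
    by_contra hbn
    have hbz : b ≠ z := by
      rintro rfl
      exact hbn (mem_insert_self _ _)
    have hbp : ∀ k ≤ m, b ≠ p k := by
      intro k hk h
      exact hbn (h ▸ hmem k hk)
    rcases mem_insert.1 ha with rfl | ha
    · exact hthree a hz b hb (p 0) (hpC 0 (by omega)) (p m) (hpC m le_rfl) hab hzj hmz.symm
        (hbp 0 (by omega)) (hbp m le_rfl) (fun h => by
          have := hp.1 0 (by omega) m le_rfl h
          omega)
    · obtain ⟨k, hk, rfl⟩ := mem_image.1 ha
      have hkm : k ≤ m := by have := mem_range.1 hk; omega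
      by_cases hk0 : k = 0
      · subst hk0
        exact hthree (p 0) (hpC 0 (by omega)) b hb z hz (p 1) (hpC 1 hm1) hab hzj.symm
          ((hp.2 0 (by omega) 1 hm1).2 (Or.inl rfl)) hbz (hbp 1 hm1) (hoff 1 hm1)
      · by_cases hkm' : k = m
        · subst hkm'
          rcases hall b hb hab with h | h
          · exact hbz h
          · exact hbp (k - 1) (by omega) h
        · refine hthree (p k) (hpC k hkm) b hb (p (k - 1)) (hpC _ (by omega)) (p (k + 1))
            (hpC _ (by omega)) hab ((hp.2 k hkm (k - 1) (by omega)).2 (Or.inr (by omega)))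
            ((hp.2 k hkm (k + 1) (by omega)).2 (Or.inl rfl)) (hbp _ (by omega))
            (hbp _ (by omega)) ?_
          intro h
          have := hp.1 (k - 1) (by omega) (k + 1) (by omega) h
          omega)
  rw [← hA]
  refine (card_insert_le _ _).trans ?_
  have h2 := card_image_le (s := range (m + 1)) (f := p)
  rw [card_range] at h2
  omega

end path

section main

variable {V E : Type} [Fintype V] [DecidableEq V] [Fintype E] [DecidableEq E]

/-- **Main step.** -/
theorem flow_of_ClH (hc : St_contract) {src dst : E → V} (hcl : ClH 25 src dst)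
    (hbr : Br src dst ∅ ∅) : FlowOn src dst ∅ ∅ := by
  classical
  by_contra hn
  obtain ⟨s, d, hs, hM⟩ := exists_minC (ccH 25) src dst hcl hbr hn
  have h3 := threeC hc hM
  have hgi := girthC hc hM
  refine hM.nf (flow_of_loops fun e => ?_)
  by_contra he
  let G : SimpleGraph V :=
    { Adj := Adj s d
      symm := ⟨fun a b h => GiAux.adj_symm h⟩
      loopless := ⟨fun a h => h.1 rfl⟩ }
  have hG : ∀ a b, G.Adj a b ↔ Adj s d a b := fun a b => Iff.rfl
  have h12 : ∀ (w : V) (c : G.Walk w w), c.IsCycle → 12 ≤ c.length :=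
    fun w c hc => Ord.cycle_len hgi G hG c hc
  have hxy : G.Adj (s e) (d e) := ⟨he, e, Or.inl ⟨rfl, rfl⟩⟩
  obtain ⟨C, hC, hcard⟩ := long h12 h3 hxy
  have h4 := hs C hC
  have h5 : C.filter (fun x => 3 ≤ dg s d x) = C := by
    rw [filter_eq_self]
    intro x hx
    obtain ⟨a, _, _, _, _, h6, _⟩ := hC.two x hx
    exact Ord.three_dg h3 h6
  rw [h5] at h4
  omega

end main

end Pool.Agent.R129.Hole
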